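import Mathlib

/-!
# Chromatic relatedness

There are connected graphs `F` (the paw) and `G` with `χ(F:-G) ≤ 2` and `χ(G:-F) ≤ 2` such that
for every `n ≥ 3` no graph `H` satisfies `χ(H:-F) = χ(H:-G) = n`.
-/

namespace Pool.Agent.Results.MP_3e1815_co.PawCounterexample

open SimpleGraph

/-- `H` has a `G`-free `k`-colouring: its vertices can be partitioned into at most `k` classes
(the nonempty fibres of `c`), none of which induces a subgraph containing `G` as an induced
subgraph. -/
def FreeColorable {V W : Type} (H : SimpleGraph V) (G : SimpleGraph W) (k : ℕ) : Prop :=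
  ∃ c : V → Fin k, ∀ i : Fin k, ¬ G.IsIndContained (H.induce {v | c v = i})

/-- The `G`-free chromatic number `χ(H:-G)`: the least `k` such that `H` has a `G`-free
`k`-colouring. -/
noncomputable def freeChromaticNumber {V W : Type} (H : SimpleGraph V) (G : SimpleGraph W) : ℕ :=
  sInf {k : ℕ | FreeColorable H G k}

/-- `F` and `G` are `n`-chromatically related: some finite graph `H` has
`χ(H:-F) = χ(H:-G) = n`. -/
def ChromaticallyRelated {V W : Type} (F : SimpleGraph V) (G : SimpleGraph W) (n : ℕ) : Prop :=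
  ∃ (U : Type) (_ : Fintype U) (H : SimpleGraph U),
    freeChromaticNumber H F = n ∧ freeChromaticNumber H G = n

/-! ### The paw -/

/-- The paw: a triangle `0, 1, 2` with a pendant vertex `3` attached to `2`. -/
def paw : SimpleGraph (Fin 4) where
  Adj i j := i ≠ j ∧ (i = 3 → j = 2) ∧ (j = 3 → i = 2)
  symm := ⟨fun _ _ h => ⟨h.1.symm, h.2.2, h.2.1⟩⟩
  loopless := ⟨fun _ h => h.1 rfl⟩

instance : DecidableRel paw.Adj := fun i j =>
  inferInstanceAs (Decidable (i ≠ j ∧ (i = 3 → j = 2) ∧ (j = 3 → i = 2)))

lemma paw_free {V : Type} (H : SimpleGraph V) (S : Set V)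
    (h : ¬ paw.IsIndContained (H.induce S)) {v x y w : V} (hv : v ∈ S) (hx : x ∈ S) (hy : y ∈ S)
    (hw : w ∈ S) (hvx : H.Adj v x) (hvy : H.Adj v y) (hxy : H.Adj x y) (hwv : H.Adj w v)
    (hwx : w ≠ x) (hwy : w ≠ y) : H.Adj w x ∨ H.Adj w y := by
  by_contra hcon
  push Not at hcon
  obtain ⟨h1, h2⟩ := hcon
  apply h
  have e1 := hvx.ne
  have e2 := hvy.ne
  have e3 := hxy.ne
  have e4 := hwv.ne
  refine ⟨⟨⟨![⟨x, hx⟩, ⟨y, hy⟩, ⟨v, hv⟩, ⟨w, hw⟩], ?_⟩, ?_⟩⟩
  · intro i j hij
    fin_cases i <;> fin_cases j <;> simp_all [Subtype.ext_iff]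
  · intro i j
    have hvx' := hvx.symm
    have hvy' := hvy.symm
    have hxy' := hxy.symm
    have hwv' := hwv.symm
    have h1' : ¬ H.Adj x w := fun h => h1 h.symm
    have h2' : ¬ H.Adj y w := fun h => h2 h.symm
    change H.Adj ((![⟨x, hx⟩, ⟨y, hy⟩, ⟨v, hv⟩, ⟨w, hw⟩] i : S) : V)
      ((![⟨x, hx⟩, ⟨y, hy⟩, ⟨v, hv⟩, ⟨w, hw⟩] j : S) : V) ↔ paw.Adj i j
    clear h
    fin_cases i <;> fin_cases j <;> simp_all [paw]

/-- A path on four vertices cannot be induced on a set of vertices lying in triangles of a
paw-free graph. -/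
lemma no_induced_path {V : Type} (H : SimpleGraph V) (S : Set V)
    (h : ¬ paw.IsIndContained (H.induce S)) {a b c d x y : V} (ha : a ∈ S) (hb : b ∈ S)
    (hc : c ∈ S) (hd : d ∈ S) (hx : x ∈ S) (hy : y ∈ S) (hab : H.Adj a b) (hbc : H.Adj b c)
    (hcd : H.Adj c d) (hac : ¬ H.Adj a c) (hbd : ¬ H.Adj b d) (had : ¬ H.Adj a d)
    (hbx : H.Adj b x) (hby : H.Adj b y) (hxy : H.Adj x y) : False := by
  -- the edge `bc` is in a triangle
  obtain ⟨q, hq, hqb, hqc⟩ : ∃ q ∈ S, H.Adj q b ∧ H.Adj q c := by
    by_cases hcx : c = x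
    · subst hcx
      exact ⟨y, hy, hby.symm, hxy.symm⟩
    · by_cases hcy : c = y
      · subst hcy
        exact ⟨x, hx, hbx.symm, hxy⟩
      · rcases paw_free H S h hb hx hy hc hbx hby hxy hbc.symm hcx hcy with h1 | h1
        · exact ⟨x, hx, hbx.symm, h1.symm⟩
        · exact ⟨y, hy, hby.symm, h1.symm⟩
  have hac' : a ≠ c := by
    rintro rfl
    exact had hcd
  have hbd' : b ≠ d := by
    rintro rfl
    exact had hab
  have haq : a ≠ q := by
    rintro rfl
    exact hac hqc
  have hdq : d ≠ q := by
    rintro rfl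
    exact hbd hqb.symm
  have h1 : H.Adj a q := by
    rcases paw_free H S h hb hc hq ha hbc hqb.symm hqc.symm hab hac' haq with h1 | h1
    · exact absurd h1 hac
    · exact h1
  have h2 : H.Adj d q := by
    rcases paw_free H S h hc hb hq hd hbc.symm hqc.symm hqb.symm hcd.symm hbd'.symm hdq
      with h2 | h2
    · exact absurd h2.symm hbd
    · exact h2
  have had' : a ≠ d := by
    rintro rfl
    exact hac hcd.symm
  rcases paw_free H S h hq ha hb hd h1.symm hqb hab h2 had'.symm hbd'.symm with h3 | h3
  · exact had h3.symm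
  · exact hbd h3.symm

/-! ### Monochromatic increasing paths -/

/-- There is an increasing path with `m` edges, all of colour `c`, ending at `i`. -/
def PathTo {N : ℕ} (f : Fin N → Fin N → ℕ) (c : ℕ) : ℕ → Fin N → Prop
  | 0, _ => True
  | m + 1, i => ∃ j : Fin N, j < i ∧ f j i = c ∧ PathTo f c m j

lemma exists_path (f : Fin 65 → Fin 65 → ℕ) (hf : ∀ i j, f i j < 3) :
    ∃ c < 3, ∃ i, PathTo f c 4 i := by
  classical
  by_contra hcon
  push Not at hcon
  let L : ℕ → Fin 65 → ℕ := fun c i => Nat.findGreatest (fun m => PathTo f c m i) 3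
  have hL : ∀ c i, L c i ≤ 3 := fun c i => Nat.findGreatest_le 3
  have hmono : ∀ c < 3, ∀ i j : Fin 65, i < j → f i j = c → L c i < L c j := by
    intro c hc i j hij hfc
    have h1 : PathTo f c (L c i) i :=
      Nat.findGreatest_spec (P := fun m => PathTo f c m i) (Nat.zero_le 3) trivial
    have h2 : PathTo f c (L c i + 1) j := ⟨i, hij, hfc, h1⟩
    have h3 : L c i + 1 ≤ 3 := by
      by_contra hlt
      have h4 : L c i = 3 := by
        have := hL c i
        omega
      rw [h4] at h2
      exact hcon c hc j h2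
    exact Nat.lt_of_succ_le (Nat.le_findGreatest h3 h2)
  let g : Fin 65 → Fin 4 × Fin 4 × Fin 4 := fun i =>
    (⟨L 0 i, by have := hL 0 i; omega⟩, ⟨L 1 i, by have := hL 1 i; omega⟩,
      ⟨L 2 i, by have := hL 2 i; omega⟩)
  have hg : Function.Injective g := by
    intro i j hij
    simp only [g, Prod.mk.injEq, Fin.mk.injEq] at hij
    obtain ⟨h0, h1, h2⟩ := hij
    have key : ∀ i j : Fin 65, L 0 i = L 0 j → L 1 i = L 1 j → L 2 i = L 2 j → ¬ i < j := by
      intro i j h0 h1 h2 hlt
      have hc := hf i j
      have hm := hmono (f i j) hc i j hlt rfl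
      interval_cases (f i j)
      all_goals omega
    rcases lt_trichotomy i j with hlt | heq | hgt
    · exact absurd hlt (key i j h0 h1 h2)
    · exact heq
    · exact absurd hgt (key j i h0.symm h1.symm h2.symm)
  have := Fintype.card_le_of_injective g hg
  simp at this

/-! ### The second graph -/

/-- The vertices of the shift graph: pairs `i < j` in `Fin 65`. -/
abbrev Pair : Type := {p : Fin 65 × Fin 65 // p.1 < p.2}

/-- Adjacency in the join of one vertex with the disjoint union of `K_7` and the shift graph. -/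
def bigAdj : Option (Fin 7 ⊕ Pair) → Option (Fin 7 ⊕ Pair) → Prop
  | none, none => False
  | none, some _ => True
  | some _, none => True
  | some (Sum.inl i), some (Sum.inl j) => i ≠ j
  | some (Sum.inl _), some (Sum.inr _) => False
  | some (Sum.inr _), some (Sum.inl _) => False
  | some (Sum.inr p), some (Sum.inr q) => p.1.2 = q.1.1 ∨ q.1.2 = p.1.1

/-- The join of one vertex with the disjoint union of `K_7` and the shift graph on `65` points. -/
def big : SimpleGraph (Option (Fin 7 ⊕ Pair)) where
  Adj := bigAdj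
  symm := ⟨by
    rintro (_ | i | p) (_ | j | q) h
    · exact h
    · exact trivial
    · exact trivial
    · exact trivial
    · exact Ne.symm h
    · exact h
    · exact trivial
    · exact h
    · exact Or.symm h⟩
  loopless := ⟨by
    rintro (_ | i | p) h
    · exact h
    · exact h rfl
    · have hp := p.2
      rcases h with h | h
      · exact absurd h (ne_of_gt hp)
      · exact absurd h (ne_of_gt hp)⟩

lemma big_connected : big.Connected := by
  have h : ∀ v, big.Reachable none v := by
    intro v
    rcases v with _ | v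
    · exact SimpleGraph.Reachable.refl _
    · exact SimpleGraph.Adj.reachable (show bigAdj none (some v) from trivial)
  exact { preconnected := fun u v => (h u).symm.trans (h v), nonempty := ⟨none⟩ }

lemma paw_connected : paw.Connected := by
  have h : ∀ v, paw.Reachable 2 v := by
    intro v
    by_cases hv : v = 2
    · rw [hv]
    · refine SimpleGraph.Adj.reachable ?_
      revert v
      decide
  exact { preconnected := fun u v => (h u).symm.trans (h v), nonempty := ⟨2⟩ }

lemma paw_isIndContained_big : paw.IsIndContained big := by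
  have h := paw_free (V := Option (Fin 7 ⊕ Pair)) big Set.univ
  by_contra hcon
  have h' : ¬ paw.IsIndContained (big.induce Set.univ) := by
    intro h1
    exact hcon (h1.trans ⟨SimpleGraph.Embedding.induce _⟩)
  have := h h' (v := none) (x := some (Sum.inl 0)) (y := some (Sum.inl 1))
    (w := some (Sum.inr ⟨(0, 1), by decide⟩)) trivial trivial trivial trivial trivial trivial
    (show (0 : Fin 7) ≠ 1 by decide) trivial (by simp) (by simp)
  rcases this with h1 | h1 <;> exact h1

/-! ### The colourings of `F` and `G` -/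

lemma freeChromaticNumber_paw_big : freeChromaticNumber paw big ≤ 2 := by
  refine Nat.sInf_le ⟨fun _ => 0, fun i hi => ?_⟩
  obtain ⟨f⟩ := hi
  let g : Fin 7 → Fin 4 := fun x => (f (some (Sum.inl x))).1
  have hg : Function.Injective g := by
    intro x y hxy
    have h1 : f (some (Sum.inl x)) = f (some (Sum.inl y)) := Subtype.ext hxy
    have h2 := f.injective h1
    simpa using h2
  have := Fintype.card_le_of_injective g hg
  simp at this

lemma freeChromaticNumber_big_paw : freeChromaticNumber big paw ≤ 2 := by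
  refine Nat.sInf_le ⟨fun v => match v with
    | none => 0
    | some _ => 1, fun i hi => ?_⟩
  obtain ⟨f⟩ := hi
  have hadj : ∀ a b, paw.Adj a b → big.Adj (f a).1 (f b).1 := fun a b hab =>
    (f.map_adj_iff (v := a) (w := b)).mpr hab
  have hadj' : ∀ a b, big.Adj (f a).1 (f b).1 → paw.Adj a b := fun a b hab =>
    (f.map_adj_iff (v := a) (w := b)).mp hab
  have hne : ∀ a b, a ≠ b → (f a).1 ≠ (f b).1 := fun a b hab h =>
    hab (f.injective (Subtype.ext h))
  have h01 := hadj 0 1 (by decide)
  have h02 := hadj 0 2 (by decide)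
  have h12 := hadj 1 2 (by decide)
  have h23 := hadj 2 3 (by decide)
  have h03 : ¬ big.Adj (f 0).1 (f 3).1 := fun h => absurd (hadj' 0 3 h) (by decide)
  have n03 := hne 0 3 (by decide)
  have c0 := (f 0).2
  have c1 := (f 1).2
  have c2 := (f 2).2
  have c3 := (f 3).2
  generalize (f 0).1 = v0 at *
  generalize (f 1).1 = v1 at *
  generalize (f 2).1 = v2 at *
  generalize (f 3).1 = v3 at *
  simp only [Set.mem_ofPred_eq] at c0 c1 c2 c3
  rcases v0 with _ | i0 | p0
  · rcases v1 with _ | v1
    · exact h01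
    · exact absurd (c0.trans c1.symm) (by simp)
  · rcases v2 with _ | i2 | p2
    · exact absurd (c0.trans c2.symm) (by simp)
    · rcases v3 with _ | i3 | p3
      · exact absurd (c0.trans c3.symm) (by simp)
      · refine h03 (show i0 ≠ i3 from ?_)
        rintro rfl
        exact n03 rfl
      · exact h23
    · exact h02
  · rcases v1 with _ | i1 | p1
    · exact absurd (c0.trans c1.symm) (by simp)
    · exact h01
    · rcases v2 with _ | i2 | p2
      · exact absurd (c0.trans c2.symm) (by simp)
      · exact h02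
      · have h01' : p0.1.2 = p1.1.1 ∨ p1.1.2 = p0.1.1 := h01
        have h02' : p0.1.2 = p2.1.1 ∨ p2.1.2 = p0.1.1 := h02
        have h12' : p1.1.2 = p2.1.1 ∨ p2.1.2 = p1.1.1 := h12
        have l0 := p0.2
        have l1 := p1.2
        have l2 := p2.2
        omega

/-! ### Main argument -/

/-- A graph with a paw-free colouring with `n + 1 ≥ 3` colours has a `big`-free colouring with
`n` colours. -/
theorem freeColorable_big {U : Type} (H : SimpleGraph U) (n : ℕ) (hn : 2 ≤ n)
    (h : FreeColorable H paw (n + 1)) : FreeColorable H big n := by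
  classical
  obtain ⟨c, hc⟩ := h
  -- `T v`: the vertex `v` lies in a triangle inside its colour class
  let T : U → Prop := fun v => ∃ x y, c x = c v ∧ c y = c v ∧ H.Adj v x ∧ H.Adj v y ∧ H.Adj x y
  let d : U → Fin n := fun v =>
    if h3 : (c v : ℕ) < 3 then (if T v then ⟨1, by omega⟩ else ⟨0, by omega⟩)
    else ⟨(c v : ℕ) - 1, by have := (c v).2; omega⟩
  have hd0 : ∀ v, (d v : ℕ) = 0 → (c v : ℕ) < 3 ∧ ¬ T v := by
    intro v hv
    by_cases h1 : (c v : ℕ) < 3
    · by_cases h2 : T v
      · simp [d, h1, h2] at hv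
      · exact ⟨h1, h2⟩
    · simp only [d, dif_neg h1] at hv
      omega
  have hd1 : ∀ v, (d v : ℕ) = 1 → (c v : ℕ) < 3 ∧ T v := by
    intro v hv
    by_cases h1 : (c v : ℕ) < 3
    · by_cases h2 : T v
      · exact ⟨h1, h2⟩
      · simp [d, h1, h2] at hv
    · simp only [d, dif_neg h1] at hv
      omega
  have hd2 : ∀ v, 2 ≤ (d v : ℕ) → (c v : ℕ) = d v + 1 := by
    intro v hv
    by_cases h1 : (c v : ℕ) < 3
    · by_cases h2 : T v
      · simp [d, h1, h2] at hv
      · simp [d, h1, h2] at hv
    · simp only [d, dif_neg h1]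
      omega
  refine ⟨d, fun j hj => ?_⟩
  obtain ⟨f⟩ := hj
  have hadj : ∀ a b, big.Adj a b → H.Adj (f a).1 (f b).1 := fun a b hab =>
    (f.map_adj_iff (v := a) (w := b)).mpr hab
  have hadj' : ∀ a b, H.Adj (f a).1 (f b).1 → big.Adj a b := fun a b hab =>
    (f.map_adj_iff (v := a) (w := b)).mp hab
  have hj' : ∀ a, d (f a).1 = j := fun a => (f a).2
  rcases Nat.lt_or_ge j.1 2 with hj2 | hj2
  · rcases Nat.lt_or_ge j.1 1 with hj1 | hj1
    · -- class `0`: three vertices of `K_7` have the same colour
      have hj0 : ∀ a, ((d (f a).1 : Fin n) : ℕ) = 0 := fun a => by rw [hj' a]; omega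
      let g : Fin 7 → Fin 3 := fun i => ⟨(c (f (some (Sum.inl i))).1 : ℕ),
        (hd0 _ (hj0 _)).1⟩
      have hpig : ∃ y : Fin 3, 2 < (Finset.univ.filter (fun i => g i = y)).card := by
        have := Finset.exists_lt_card_fiber_of_mul_lt_card_of_maps_to
          (s := (Finset.univ : Finset (Fin 7))) (t := (Finset.univ : Finset (Fin 3))) (f := g)
          (n := 2) (fun a _ => Finset.mem_univ _) (by simp)
        obtain ⟨y, _, hy⟩ := this
        exact ⟨y, hy⟩
      obtain ⟨y, hy⟩ := hpig
      rw [Finset.two_lt_card] at hy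
      obtain ⟨i1, h1, i2, h2, i3, h3, n12, n13, n23⟩ := hy
      simp only [Finset.mem_filter, Finset.mem_univ, true_and] at h1 h2 h3
      have e12 : c (f (some (Sum.inl i2))).1 = c (f (some (Sum.inl i1))).1 := by
        apply Fin.ext
        have := congrArg Fin.val (h2.trans h1.symm)
        exact this
      have e13 : c (f (some (Sum.inl i3))).1 = c (f (some (Sum.inl i1))).1 := by
        apply Fin.ext
        have := congrArg Fin.val (h3.trans h1.symm)
        exact this
      refine (hd0 _ (hj0 (some (Sum.inl i1)))).2 ⟨_, _, e12, e13, ?_, ?_, ?_⟩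
      · exact hadj _ _ (show i1 ≠ i2 from n12)
      · exact hadj _ _ (show i1 ≠ i3 from n13)
      · exact hadj _ _ (show i2 ≠ i3 from n23)
    · -- class `1`: an induced path in a colour class
      have hj0 : ∀ a, ((d (f a).1 : Fin n) : ℕ) = 1 := fun a => by rw [hj' a]; omega
      let φ : Fin 65 → Fin 65 → ℕ := fun i j =>
        if h : i < j then (c (f (some (Sum.inr ⟨(i, j), h⟩))).1 : ℕ) else 0
      have hφ : ∀ i j, φ i j < 3 := by
        intro i j
        simp only [φ]
        split_ifs with h
        · exact (hd1 _ (hj0 _)).1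
        · omega
      obtain ⟨col, _, i5, i4, l45, c45, i3, l34, c34, i2, l23, c23, i1, l12, c12, _⟩ :=
        exists_path φ hφ
      simp only [φ, dif_pos l45] at c45
      simp only [φ, dif_pos l34] at c34
      simp only [φ, dif_pos l23] at c23
      simp only [φ, dif_pos l12] at c12
      set v1 := (f (some (Sum.inr ⟨(i1, i2), l12⟩))).1 with hv1
      set v2 := (f (some (Sum.inr ⟨(i2, i3), l23⟩))).1 with hv2
      set v3 := (f (some (Sum.inr ⟨(i3, i4), l34⟩))).1 with hv3
      set v4 := (f (some (Sum.inr ⟨(i4, i5), l45⟩))).1 with hv4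
      obtain ⟨x, y, hx, hy, hvx, hvy, hxy⟩ := (hd1 _ (hj0 (some (Sum.inr ⟨(i2, i3), l23⟩)))).2
      rw [← hv2] at hx hy hvx hvy
      have e1 : c v1 = c v2 := Fin.ext (c12.trans c23.symm)
      have e3 : c v3 = c v2 := Fin.ext (c34.trans c23.symm)
      have e4 : c v4 = c v2 := Fin.ext (c45.trans c23.symm)
      refine no_induced_path H {v | c v = c v2} (hc (c v2)) (a := v1) (b := v2) (c := v3)
        (d := v4) (x := x) (y := y) e1 rfl e3 e4 hx hy ?_ ?_ ?_ ?_ ?_ ?_ hvx hvy hxy
      · exact hadj _ _ (Or.inl rfl)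
      · exact hadj _ _ (Or.inl rfl)
      · exact hadj _ _ (Or.inl rfl)
      · intro h
        have h' := hadj' _ _ h
        have h'' : i2 = i3 ∨ i4 = i1 := h'
        omega
      · intro h
        have h' := hadj' _ _ h
        have h'' : i3 = i4 ∨ i5 = i2 := h'
        omega
      · intro h
        have h' := hadj' _ _ h
        have h'' : i2 = i4 ∨ i5 = i1 := h'
        omega
  · -- the other classes are paw-free
    have hj0 : ∀ v, d v = j → c v = ⟨(j : ℕ) + 1, by have := j.2; omega⟩ := by
      intro v hv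
      apply Fin.ext
      simp only
      rw [← hv]
      exact hd2 v (by rw [hv]; exact hj2)
    refine hc ⟨(j : ℕ) + 1, by have := j.2; omega⟩ ?_
    refine paw_isIndContained_big.trans ?_
    refine ⟨⟨⟨fun a => ⟨(f a).1, hj0 _ (hj' a)⟩, ?_⟩, ?_⟩⟩
    · intro a b hab
      have h1 : (f a).1 = (f b).1 := by
        have := congrArg (fun z : {v | c v = ⟨(j : ℕ) + 1, by have := j.2; omega⟩} => z.1) hab
        exact this
      exact f.injective (Subtype.ext h1)
    · intro a b
      exact ⟨fun h => hadj' a b h, fun h => hadj a b h⟩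

theorem not_related (n : ℕ) (hn : 3 ≤ n) : ¬ ChromaticallyRelated paw big n := by
  rintro ⟨U, _, H, h1, h2⟩
  have h3 : FreeColorable H paw n := by
    have hne : {k : ℕ | FreeColorable H paw k}.Nonempty := by
      by_contra hcon
      rw [Set.not_nonempty_iff_eq_empty] at hcon
      unfold freeChromaticNumber at h1
      rw [hcon, Nat.sInf_empty] at h1
      omega
    have := Nat.sInf_mem hne
    unfold freeChromaticNumber at h1
    rw [h1] at this
    exact this
  obtain ⟨m, rfl⟩ : ∃ m, n = m + 1 := ⟨n - 1, by omega⟩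
  have h4 : freeChromaticNumber H big ≤ m := Nat.sInf_le (freeColorable_big H m (by omega) h3)
  omega

/-- There are finite connected graphs `F` and `G` with at least two vertices each such that
`χ(F:-G) ≤ 2` and `χ(G:-F) ≤ 2`, and for every `n ≥ 3` the graphs `F` and `G` are not
`n`-chromatically related. -/
theorem result : ∃ (V W : Type) (_ : Fintype V) (_ : Fintype W) (F : SimpleGraph V)
    (G : SimpleGraph W), 2 ≤ Fintype.card V ∧ 2 ≤ Fintype.card W ∧ F.Connected ∧ G.Connected ∧
    freeChromaticNumber F G ≤ 2 ∧ freeChromaticNumber G F ≤ 2 ∧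
    ∀ n : ℕ, 3 ≤ n → ¬ ChromaticallyRelated F G n := by
  refine ⟨Fin 4, Option (Fin 7 ⊕ Pair), inferInstance, inferInstance, paw, big, ?_, ?_,
    paw_connected, big_connected, freeChromaticNumber_paw_big, freeChromaticNumber_big_paw,
    not_related⟩
  · simp
  · rw [Fintype.card_option, Fintype.card_sum, Fintype.card_fin]
    omega

end Pool.Agent.Results.MP_3e1815_co.PawCounterexample
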